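import Pool.Agent.V1131.HR4

/-!
# MP_e0518f_lc: circle homeomorphisms with irrational rotation number form a Haar null set

`H_+(𝕊¹)` is the group of orientation preserving homeomorphisms of `𝕊¹ = ℝ/ℤ` with the topology of
uniform convergence (of the homeomorphisms and of their inverses). We show that the set of the
homeomorphisms with irrational rotation number is Haar null: there is a Borel probability measure
`μ` on `H_+(𝕊¹)` such that for all `g, h` the set `g B h` is `μ`-null, where `B` is a Borel set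
containing all homeomorphisms with irrational rotation number.

The measure is the distribution of an infinite composition of independent random homeomorphisms
which are close to the identity and are nearly locally constant outside small neighbourhoods of
finitely many points.
-/

set_option autoImplicit false

open MeasureTheory Topology Filter Set

namespace Pool.Agent.Results.MP_e0518f_lc.HaarNull

/-- The circle `𝕊¹ = ℝ/ℤ`. -/
abbrev Circ : Type := AddCircle (1 : ℝ)

/-- `F : ℝ → ℝ` is an increasing lift of `f : 𝕊¹ → 𝕊¹`. -/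
structure IsLift (F : ℝ → ℝ) (f : Circ → Circ) : Prop where
  cont : Continuous F
  mono : StrictMono F
  add_one : ∀ x, F (x + 1) = F x + 1
  lifts : ∀ x : ℝ, f (x : Circ) = ((F x : ℝ) : Circ)

/-- `H_+(𝕊¹)`: the group of the orientation preserving homeomorphisms of the circle, that is of the
homeomorphisms that have an increasing lift. -/
def Hplus : Subgroup (Circ ≃ₜ Circ) where
  carrier := {f | ∃ F : ℝ → ℝ, IsLift F f}
  mul_mem' := by
    rintro f g ⟨F, hF⟩ ⟨G, hG⟩
    refine ⟨F ∘ G, hF.cont.comp hG.cont, hF.mono.comp hG.mono, fun x => ?_, fun x => ?_⟩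
    · simp [hG.add_one, hF.add_one]
    · rw [Homeomorph.mul_apply, hG.lifts, hF.lifts]
      rfl
  one_mem' := ⟨fun x => x, continuous_id, strictMono_id, fun _ => rfl, fun _ => rfl⟩
  inv_mem' := by
    rintro f ⟨F, hF⟩
    have hL : Pool.Agent.V1131.HR.Lft F := ⟨hF.cont, hF.mono, hF.add_one⟩
    refine ⟨Pool.Agent.V1131.HR.nv F, hL.nv.cont, hL.nv.mono, hL.nv.add_one, fun x => ?_⟩
    rw [Homeomorph.inv_apply, Homeomorph.symm_apply_eq, hF.lifts, hL.nv_right]

/-- The topology of uniform convergence of the homeomorphisms and of their inverses; it is the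
topology of the metric `d(f, g) = sup |f(x) - g(x)| + sup |f⁻¹(x) - g⁻¹(x)|`. -/
instance : TopologicalSpace Hplus :=
  TopologicalSpace.induced
    (fun f : Hplus => (((f : Circ ≃ₜ Circ) : C(Circ, Circ)),
      ((f : Circ ≃ₜ Circ).symm : C(Circ, Circ)))) inferInstance

/-- The rotation number of `f` is irrational: for a lift `F` of `f`, the numbers
`(Fⁿ(x) - x) / n` converge to an irrational number (a representative of the rotation number
modulo one) for each `x`. -/
def IrrationalRotationNumber (f : Hplus) : Prop :=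
  ∃ F : ℝ → ℝ, IsLift F (f : Circ ≃ₜ Circ) ∧ ∃ τ : ℝ, Irrational τ ∧
    ∀ x : ℝ, Tendsto (fun n : ℕ => (F^[n] x - x) / n) atTop (𝓝 τ)

/-- Haar null sets in the sense of Christensen: `A` is contained in a Borel set `B` such that some
Borel probability measure vanishes on all two-sided translates of `B`. -/
def IsHaarNull (G : Type) [Group G] [TopologicalSpace G] (A : Set G) : Prop :=
  ∃ B : Set G, A ⊆ B ∧ MeasurableSet[borel G] B ∧
    ∃ μ : @Measure G (borel G), @IsProbabilityMeasure G (borel G) μ ∧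
      ∀ g h : G, μ {x | ∃ b ∈ B, x = g * b * h} = 0

open Pool.Agent.V1131.HR

/-! ### the topological group -/

theorem cont_pair : Continuous (fun f : Hplus => (((f : Circ ≃ₜ Circ) : C(Circ, Circ)),
    ((f : Circ ≃ₜ Circ).symm : C(Circ, Circ)))) := continuous_induced_dom

theorem cont_coe : Continuous (fun f : Hplus => ((f : Circ ≃ₜ Circ) : C(Circ, Circ))) :=
  continuous_fst.comp cont_pair

theorem cont_symm : Continuous (fun f : Hplus => ((f : Circ ≃ₜ Circ).symm : C(Circ, Circ))) :=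
  continuous_snd.comp cont_pair

instance : ContinuousMul Hplus := by
  constructor
  rw [continuous_induced_rng]
  refine Continuous.prodMk ?_ ?_
  · exact (cont_coe.comp continuous_fst).compCM (cont_coe.comp continuous_snd)
  · exact (cont_symm.comp continuous_snd).compCM (cont_symm.comp continuous_fst)

/-- the homeomorphisms without periodic points -/
def Aper : Set Hplus := {f | ∀ q : ℕ, 0 < q → ∀ x : Circ, ((f ^ q : Hplus) : Circ ≃ₜ Circ) x ≠ x}

theorem open_free : IsOpen {f : Hplus | ∀ x : Circ, (f : Circ ≃ₜ Circ) x ≠ x} := by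
  have h1 : Continuous (fun f : Hplus =>
      ((f : Circ ≃ₜ Circ) : C(Circ, Circ)) - ContinuousMap.id Circ) :=
    cont_coe.sub continuous_const
  have h2 : IsOpen {φ : C(Circ, Circ) | MapsTo φ univ {(0 : Circ)}ᶜ} :=
    ContinuousMap.isOpen_setOfPred_mapsTo isCompact_univ isClosed_singleton.isOpen_compl
  have h3 := h2.preimage h1
  convert h3 using 1
  ext f
  simp [MapsTo, sub_eq_zero]

theorem meas_translate (g h : Hplus) :
    MeasurableSet[borel Hplus] {x : Hplus | g⁻¹ * x * h⁻¹ ∈ Aper} := by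
  let _ : MeasurableSpace Hplus := borel Hplus
  have _ : BorelSpace Hplus := ⟨rfl⟩
  have h1 : {x : Hplus | g⁻¹ * x * h⁻¹ ∈ Aper} = ⋂ q : ℕ, ⋂ (_ : 0 < q),
      {x : Hplus | ∀ z : Circ, (((g⁻¹ * x * h⁻¹) ^ q : Hplus) : Circ ≃ₜ Circ) z ≠ z} := by
    ext x
    simp only [Aper, mem_ofPred_eq, mem_iInter]
  rw [h1]
  refine MeasurableSet.iInter fun q => MeasurableSet.iInter fun _ => ?_
  apply IsOpen.measurableSet
  have h2 : Continuous (fun x : Hplus => (g⁻¹ * x * h⁻¹) ^ q) :=
    ((continuous_const.mul continuous_id).mul continuous_const).pow q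
  exact open_free.preimage h2

/-! ### lifts -/

theorem coe_eq_iff (x y : ℝ) : (x : Circ) = (y : Circ) ↔ ∃ p : ℤ, x = y + p := by
  rw [← sub_eq_zero, ← AddCircle.coe_sub, AddCircle.coe_eq_zero_iff]
  constructor
  · rintro ⟨n, hn⟩
    refine ⟨n, ?_⟩
    rw [zsmul_eq_mul, mul_one] at hn
    linarith
  · rintro ⟨n, hn⟩
    refine ⟨n, ?_⟩
    rw [zsmul_eq_mul, mul_one]
    linarith

theorem lift_iter {f : Hplus} {F : ℝ → ℝ} (hF : IsLift F (f : Circ ≃ₜ Circ)) (q : ℕ) (x : ℝ) :
    ((f ^ q : Hplus) : Circ ≃ₜ Circ) (x : Circ) = ((F^[q] x : ℝ) : Circ) := by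
  induction q generalizing x with
  | zero => rfl
  | succ q ih =>
    rw [pow_succ, Subgroup.coe_mul, Homeomorph.mul_apply, hF.lifts, ih,
      Function.iterate_succ_apply]

theorem sub_aper : {f : Hplus | IrrationalRotationNumber f} ⊆ Aper := by
  rintro f ⟨F, hF, τ, hτ, hlim⟩ q hq x hx
  obtain ⟨z, rfl⟩ := QuotientAddGroup.mk_surjective x
  have h1 : ((F^[q] z : ℝ) : Circ) = (z : Circ) := by
    rw [← lift_iter hF q z]
    exact hx
  obtain ⟨p, hp⟩ := (coe_eq_iff _ _).1 h1
  let G : CircleDeg1Lift := ⟨⟨F, hF.mono.monotone⟩, hF.add_one⟩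
  have h2 : G.translationNumber = (p : ℝ) / q := by
    apply CircleDeg1Lift.translationNumber_of_map_pow_eq_add_int (x := z) (n := q) (m := p)
    · rw [CircleDeg1Lift.coe_pow]
      exact hp
    · exact hq
  have h3 := G.tendsto_translationNumber z
  have h4 : Tendsto (fun n : ℕ => (F^[n] z - z) / n) atTop (𝓝 G.translationNumber) := by
    refine h3.congr (fun n => ?_)
    rw [CircleDeg1Lift.coe_pow]
    rfl
  have h5 := tendsto_nhds_unique h4 (hlim z)
  apply hτ
  refine ⟨(p : ℚ) / q, ?_⟩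
  rw [← h5, h2]
  push_cast
  rfl

/-- the circle map with a given lift -/
noncomputable def cmap (F : ℝ → ℝ) (hF : Lft F) : Circ → Circ :=
  Function.Periodic.lift (f := fun x : ℝ => ((F x : ℝ) : Circ)) (c := (1 : ℝ)) (fun x => by
    simp only
    rw [hF.add_one, AddCircle.coe_add, AddCircle.coe_period, add_zero])

theorem cmap_coe (F : ℝ → ℝ) (hF : Lft F) (x : ℝ) : cmap F hF (x : Circ) = ((F x : ℝ) : Circ) := rfl

theorem cmap_cont (F : ℝ → ℝ) (hF : Lft F) : Continuous (cmap F hF) := by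
  have h1 : Continuous (cmap F hF ∘ (QuotientAddGroup.mk : ℝ → Circ)) :=
    (AddCircle.continuous_mk' (1 : ℝ)).comp hF.cont
  exact QuotientAddGroup.isOpenQuotientMap_mk.continuous_comp_iff.1 h1

/-- the homeomorphism with given lifts of itself and of its inverse -/
noncomputable def mkH (F G : ℝ → ℝ) (hF : Lft F) (hG : Lft G) (h1 : ∀ x, F (G x) = x)
    (h2 : ∀ x, G (F x) = x) : Hplus :=
  ⟨{ toFun := cmap F hF
     invFun := cmap G hG
     left_inv := by
       intro x
       obtain ⟨z, rfl⟩ := QuotientAddGroup.mk_surjective x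
       exact congrArg (fun t : ℝ => (t : Circ)) (h2 z)
     right_inv := by
       intro x
       obtain ⟨z, rfl⟩ := QuotientAddGroup.mk_surjective x
       exact congrArg (fun t : ℝ => (t : Circ)) (h1 z)
     continuous_toFun := cmap_cont F hF
     continuous_invFun := cmap_cont G hG }, F, hF.cont, hF.mono, hF.add_one, fun _ => rfl⟩

/-- the random homeomorphism -/
noncomputable def Φ (ω : ℕ → ℕ × ℕ) : Hplus :=
  mkH (Fi ω) (Gi ω) (Fi_lft ω) (Gi_lft ω) (Fi_Gi ω) (Gi_Fi ω)

theorem dist_coe_le (a b : ℝ) : dist (a : Circ) (b : Circ) ≤ |a - b| := by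
  rw [dist_eq_norm, ← AddCircle.coe_sub, ← Real.norm_eq_abs]
  exact QuotientAddGroup.norm_mk_le_norm

theorem dist_small {X Y : (ℕ → ℕ × ℕ) → C(Circ, Circ)} {A : (ℕ → ℕ × ℕ) → ℝ → ℝ}
    (hX : ∀ ω (x : ℝ), X ω (x : Circ) = ((A ω x : ℝ) : Circ)) (_h : X = Y)
    (hA : ∀ (ω ω' : ℕ → ℕ × ℕ) (n : ℕ), (∀ i < n, ω i = ω' i) → ∀ x, |A ω x - A ω' x| ≤ 2 / 2 ^ n) :
    Continuous X := by
  rw [continuous_iff_continuousAt]
  intro ω
  rw [ContinuousAt, Metric.tendsto_nhds]
  intro ε hε
  obtain ⟨n, hn⟩ := exists_pow_lt_of_lt_one (show 0 < ε / 4 by positivity)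
    (by norm_num : (1 / 2 : ℝ) < 1)
  have h1 : ∀ᶠ ω' in 𝓝 ω, ∀ i < n, ω' i = ω i := by
    have h2 : ∀ i ∈ Iio n, ∀ᶠ ω' in 𝓝 ω, ω' i = ω i := by
      intro i _
      have h3 : Tendsto (fun ω' : ℕ → ℕ × ℕ => ω' i) (𝓝 ω) (𝓝 (ω i)) :=
        (continuous_apply i).tendsto ω
      exact h3.eventually (IsOpen.mem_nhds (isOpen_discrete {ω i}) rfl)
    have h4 := (Set.finite_Iio n).eventually_all.2 h2
    exact h4
  filter_upwards [h1] with ω' hω'
  have h5 : dist (X ω') (X ω) ≤ 2 / 2 ^ n := by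
    rw [ContinuousMap.dist_le (by positivity)]
    intro x
    obtain ⟨z, rfl⟩ := QuotientAddGroup.mk_surjective x
    have h6 := hX ω' z
    have h7 := hX ω z
    show dist (X ω' (z : Circ)) (X ω (z : Circ)) ≤ 2 / 2 ^ n
    rw [h6, h7]
    exact (dist_coe_le _ _).trans (hA ω' ω n hω' z)
  refine h5.trans_lt ?_
  have h8 : (2 : ℝ) / 2 ^ n = 2 * (1 / 2) ^ n := by
    rw [one_div, inv_pow]
    rfl
  rw [h8]
  linarith

theorem Φ_cont : Continuous Φ := by
  rw [continuous_induced_rng]
  refine Continuous.prodMk ?_ ?_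
  · exact dist_small (A := Fi) (fun ω x => rfl) rfl (fun ω ω' n h x => Fi_close n h x)
  · exact dist_small (A := Gi) (fun ω x => rfl) rfl (fun ω ω' n h x => Gi_close n h x)

theorem not_aper_of_hasPer {f : Hplus} {F : ℝ → ℝ} (hF : IsLift F (f : Circ ≃ₜ Circ))
    (h : HasPer F) (g : Hplus) : g * f * g⁻¹ ∉ Aper := by
  obtain ⟨q, p, z, hq, hz⟩ := h
  intro hcon
  apply hcon q hq ((g : Circ ≃ₜ Circ) (z : Circ))
  rw [conj_pow]
  have h1 : ((f ^ q : Hplus) : Circ ≃ₜ Circ) (z : Circ) = (z : Circ) := by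
    rw [lift_iter hF, coe_eq_iff]
    exact ⟨p, hz⟩
  rw [Subgroup.coe_mul, Homeomorph.mul_apply, Subgroup.coe_mul, Homeomorph.mul_apply,
    Subgroup.coe_inv, Homeomorph.inv_apply, Homeomorph.symm_apply_apply, h1]

/-- **The homeomorphisms of the circle with irrational rotation number are Haar null.** -/
theorem result : IsHaarNull Hplus {f : Hplus | IrrationalRotationNumber f} := by
  let _ : MeasurableSpace Hplus := borel Hplus
  have _ : BorelSpace Hplus := ⟨rfl⟩
  have hΦ : Measurable Φ := Φ_cont.measurable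
  refine ⟨Aper, sub_aper, ?_, μΩ.map Φ, ?_, ?_⟩
  · have := meas_translate 1 1
    simpa using this
  · exact Measure.isProbabilityMeasure_map hΦ.aemeasurable
  · intro g h
    have h1 : {x : Hplus | ∃ b ∈ Aper, x = g * b * h} = {x : Hplus | g⁻¹ * x * h⁻¹ ∈ Aper} := by
      ext x
      simp only [mem_ofPred_eq]
      constructor
      · rintro ⟨b, hb, rfl⟩
        have : g⁻¹ * (g * b * h) * h⁻¹ = b := by group
        rw [this]
        exact hb
      · intro hx
        exact ⟨_, hx, by group⟩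
    rw [h1, Measure.map_apply hΦ (meas_translate g h)]
    obtain ⟨k, hk⟩ : ∃ k : ℝ → ℝ, IsLift k ((h⁻¹ * g⁻¹ : Hplus) : Circ ≃ₜ Circ) := (h⁻¹ * g⁻¹).2
    apply bad_null k ⟨hk.cont, hk.mono, hk.add_one⟩ _ (hΦ (meas_translate g h))
    intro ω hω hper
    have hl : IsLift (Fi ω ∘ k) ((Φ ω * (h⁻¹ * g⁻¹) : Hplus) : Circ ≃ₜ Circ) := by
      have h2 := (Fi_lft ω).comp ⟨hk.cont, hk.mono, hk.add_one⟩
      refine ⟨h2.cont, h2.mono, h2.add_one, fun x => ?_⟩
      rw [Subgroup.coe_mul, Homeomorph.mul_apply, hk.lifts]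
      rfl
    have h3 := not_aper_of_hasPer hl hper g⁻¹
    apply h3
    have h4 : g⁻¹ * (Φ ω * (h⁻¹ * g⁻¹)) * g⁻¹⁻¹ = g⁻¹ * Φ ω * h⁻¹ := by group
    rw [h4]
    exact hω

end Pool.Agent.Results.MP_e0518f_lc.HaarNull
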